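import Pool.Agent.N658.FF.Stm2

/-! # Frustration-free Hamiltonians: the two-scale argument, statements of the jobs

Notation: `P_A = pr (G V A)`, `eps V x u` the energy of the term `x`. For `u` in the ground space of
`B` put `a = P_(B ∪ X) u`, `b = u - a`. -/

open scoped BigOperators InnerProductSpace Matrix Classical ComplexOrder

noncomputable section

namespace Pool.Agent.N658.FF

open Pool.Agent.TH235.PP

section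
variable {E : Type} [NormedAddCommGroup E] [InnerProductSpace ℂ E] [FiniteDimensional ℂ E]
variable {T ι : Type}

/-- The energy of the term `x`. -/
def eps (V : T → Submodule ℂ E) (x : T) (u : E) : ℝ := ‖u - pr (V x) u‖ ^ 2

/-- Quadratic growth of the neighbourhoods. -/
def Grow [Fintype T] [DecidableEq T] (adj : T → T → Prop) (Γ : ℝ) : Prop :=
  ∀ (y : T) (j : ℕ), ((Nb adj j {y}).card : ℝ) ≤ Γ * ((j : ℝ) + 1) ^ 2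

/-- The step condition along a list of groups with weights `w`. -/
def Steps [Fintype T] [DecidableEq T] (V : T → Submodule ℂ E) (X : ι → Finset T) (τ : ℝ)
    (w : List ι → T → ℝ) : List ι → Prop
  | [] => True
  | t :: ts => (∀ (B : Finset T), ∀ u ∈ G V B,
      ∑ x, w ts x * (eps V x (pr (G V (B ∪ X t)) u) + eps V x (u - pr (G V (B ∪ X t)) u)) +
        ‖u - pr (G V (B ∪ X t)) u‖ ^ 2 ≤ ∑ x, w (t :: ts) x * eps V x u + τ * ‖u‖ ^ 2) ∧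
      Steps V X τ w ts

end

/-- D1. The light cone: the projection onto a ground space creates little energy far from the
excitations. -/
def StmCone : Prop := ∀ (E : Type) [NormedAddCommGroup E] [InnerProductSpace ℂ E]
  [FiniteDimensional ℂ E] (T : Type) [Fintype T] [DecidableEq T] (V : T → Submodule ℂ E)
  (adj : T → T → Prop) (g : ℕ) (Δ : ℝ), Loc V adj g → 0 ≤ Δ → Gap V Δ →
  ∀ (c : ℕ) (col : T → Fin c), (∀ x y, x ≠ y → adj x y → col x ≠ col y) →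
  ∀ (A Y : Finset T) (k : ℕ), ∀ v ∈ G V (Nb adj (k * c) Y),
    ‖pr (G V A) v - pr (G V Y) (pr (G V A) v)‖ ≤
      Real.sqrt ((g : ℝ) ^ 2 / ((g : ℝ) ^ 2 + Δ)) ^ k * ‖v‖

/-- D2. The transfer of energy by the projection onto a ground space is local. -/
def StmTrans : Prop := ∀ (g : ℕ) (Δ Γ : ℝ), 0 < Δ → ∃ C : ℝ, 0 < C ∧
  ∀ (E : Type) [NormedAddCommGroup E] [InnerProductSpace ℂ E]
  [FiniteDimensional ℂ E] (T : Type) [Fintype T] [DecidableEq T] (V : T → Submodule ℂ E)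
  (adj : T → T → Prop), Loc V adj g → Gap V Δ → Grow adj Γ →
  ∀ (A N : Finset T) (K : ℕ) (u : E),
    ∑ x ∈ N, eps V x (pr (G V A) u) ≤ C * (∑ y ∈ Nb adj (K * (g + 1)) N, eps V y u +
      N.card * Real.sqrt ((g : ℝ) ^ 2 / ((g : ℝ) ^ 2 + Δ)) ^ K * ‖u‖ ^ 2)

/-- D3. The energies of the terms far from `X` are additive. -/
def StmFar : Prop := ∀ (g : ℕ) (Δ Γ : ℝ), 0 < Δ → ∃ C ρ : ℝ, 0 < C ∧ 0 ≤ ρ ∧ ρ < 1 ∧
  ∀ (E : Type) [NormedAddCommGroup E] [InnerProductSpace ℂ E]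
  [FiniteDimensional ℂ E] (T : Type) [Fintype T] [DecidableEq T] (V : T → Submodule ℂ E)
  (adj : T → T → Prop), Loc V adj g → Gap V Δ → Grow adj Γ →
  ∀ (B X : Finset T) (K : ℕ), ∀ u ∈ G V B,
    ∑ x ∈ Finset.univ \ Nb adj (K * (g + 1) + 1) X,
      |(⟪pr (G V (B ∪ X)) u - pr (V x) (pr (G V (B ∪ X)) u),
        u - pr (G V (B ∪ X)) u⟫_ℂ).re| ≤ C * X.card * ρ ^ K * ‖u‖ ^ 2

/-- D4. One step of the tree. -/
def StmStep : Prop := ∀ (g : ℕ) (Δ Γ : ℝ), 0 < Δ → ∃ C ρ : ℝ, 1 ≤ C ∧ 0 ≤ ρ ∧ ρ < 1 ∧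
  ∀ (E : Type) [NormedAddCommGroup E] [InnerProductSpace ℂ E]
  [FiniteDimensional ℂ E] (T : Type) [Fintype T] [DecidableEq T] (V : T → Submodule ℂ E)
  (adj : T → T → Prop), Loc V adj g → Gap V Δ → Grow adj Γ →
  ∀ (B X : Finset T) (K : ℕ), ∀ u ∈ G V B,
    (∑ x ∈ Nb adj (K * (g + 1) + 1) X,
        (eps V x (pr (G V (B ∪ X)) u) + eps V x (u - pr (G V (B ∪ X)) u)) +
      ‖u - pr (G V (B ∪ X)) u‖ ^ 2 ≤
        C * (∑ y ∈ Nb adj (2 * K * (g + 1) + 1) X, eps V y u + X.card * ρ ^ K * ‖u‖ ^ 2)) ∧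
    ∀ (w : T → ℝ) (β : ℝ), (∀ x, 0 ≤ w x) → (∀ x, w x ≤ β) →
      ∑ x ∈ Finset.univ \ Nb adj (K * (g + 1) + 1) X,
        w x * (eps V x (pr (G V (B ∪ X)) u) + eps V x (u - pr (G V (B ∪ X)) u)) ≤
      ∑ x ∈ Finset.univ \ Nb adj (K * (g + 1) + 1) X, w x * eps V x u +
        β * (C * X.card * ρ ^ K * ‖u‖ ^ 2)

/-- D5. The tree with leaf spaces `Λ B`. -/
def StmTree2 : Prop := ∀ (E : Type) [NormedAddCommGroup E] [InnerProductSpace ℂ E]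
  [FiniteDimensional ℂ E] (T ι : Type) [Fintype T] [DecidableEq T] [DecidableEq ι]
  (V : T → Submodule ℂ E) (X : ι → Finset T) (τ : ℝ) (w : List ι → T → ℝ), 0 ≤ τ →
  (∀ l x, 0 ≤ w l x) → ∀ (n₀ : ℕ) (Λ : Finset T → Submodule ℂ E),
  (∀ (B : Finset T), ∀ u ∈ G V B,
    (n₀ : ℝ) * (‖u‖ ^ 2 - ‖pr (Λ B) u‖ ^ 2) ≤ ∑ x, w [] x * eps V x u) →
  ∀ ts : List ι, ts.Nodup → Steps V X τ w ts → ∀ (B : Finset T) (n : ℕ), n ≤ n₀ →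
  ∃ W : Submodule ℂ E,
    (∀ u ∈ G V B, (n : ℝ) * (‖u‖ ^ 2 - ‖pr W u‖ ^ 2) ≤
      ∑ x, w ts x * eps V x u + ts.length * τ * ‖u‖ ^ 2) ∧
    ∀ δ : ℕ, (∀ F : Finset ι, F.card < n →
      Module.finrank ℂ (Λ (B ∪ rest X (ts.filter fun t => t ∉ F))) ≤ δ) →
      Module.finrank ℂ W ≤ (ts.length + 1) ^ n * δ

/-- D6. One scale. -/
def StmLevel : Prop := ∀ (g ν : ℕ) (Δ Γ : ℝ), 0 < Δ → ∃ C ρ : ℝ, 1 ≤ C ∧ 0 ≤ ρ ∧ ρ < 1 ∧
  ∀ (E : Type) [NormedAddCommGroup E] [InnerProductSpace ℂ E]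
  [FiniteDimensional ℂ E] (T ι : Type) [Fintype T] [DecidableEq T] [Fintype ι] [DecidableEq ι]
  (V : T → Submodule ℂ E) (adj : T → T → Prop), Loc V adj g → Gap V Δ → Grow adj Γ →
  ∀ (X : ι → Finset T) (near : ι → ι → Prop) (K M : ℕ), (∀ t, (X t).card ≤ M) →
  (∀ t j, near t j → near j t) → (∀ t, (Finset.univ.filter fun j => near t j).card ≤ ν) →
  (∀ t j, t ≠ j → ¬ near t j →
    Disjoint (Nb adj (2 * K * (g + 1) + 1) (X t)) (Nb adj (2 * K * (g + 1) + 1) (X j))) →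
  ∀ (I : Finset ι) (B : Finset T) (S : Submodule ℂ E) (θ : ℝ), S ≤ G V B →
  (∀ u ∈ S, ∑ x, eps V x u ≤ θ * ‖u‖ ^ 2) → ∀ n : ℕ,
  C * θ + I.card * (C * M * ρ ^ K) < n → ∀ Λ : Finset T → Submodule ℂ E,
  (∀ (B : Finset T), ∀ u ∈ G V B,
    (n : ℝ) * (‖u‖ ^ 2 - ‖pr (Λ B) u‖ ^ 2) ≤ ∑ x, eps V x u) →
  ∀ δ : ℕ, (∀ F : Finset ι, F.card < n →
    Module.finrank ℂ (Λ (B ∪ (I \ F).biUnion X)) ≤ δ) →
  Module.finrank ℂ S ≤ (I.card + 1) ^ n * δ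

/-- D7. Low energy subspaces. -/
def StmLow : Prop := ∀ (E : Type) [NormedAddCommGroup E] [InnerProductSpace ℂ E]
  [FiniteDimensional ℂ E] (T : Type) [Fintype T] (V : T → Submodule ℂ E) (W : Submodule ℂ E)
  (M : ℝ), 0 ≤ M → ∃ Λ : Submodule ℂ E, Λ ≤ W ∧
    (∀ u ∈ Λ, ∑ x, eps V x u ≤ M * ‖u‖ ^ 2) ∧
    ∀ u ∈ W, M * (‖u‖ ^ 2 - ‖pr Λ u‖ ^ 2) ≤ ∑ x, eps V x u

/-- D8. Two scales. -/
def StmTwo : Prop := ∀ (g ν : ℕ) (Δ Γ : ℝ), 0 < Δ → ∃ C ρ : ℝ, 1 ≤ C ∧ 0 ≤ ρ ∧ ρ < 1 ∧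
  ∀ (E : Type) [NormedAddCommGroup E] [InnerProductSpace ℂ E]
  [FiniteDimensional ℂ E] (T ι κ : Type) [Fintype T] [DecidableEq T] [Fintype ι] [DecidableEq ι]
  [Fintype κ] [DecidableEq κ]
  (V : T → Submodule ℂ E) (adj : T → T → Prop), Loc V adj g → Gap V Δ → Grow adj Γ →
  ∀ (X : ι → Finset T) (near : ι → ι → Prop) (K M : ℕ), (∀ t, (X t).card ≤ M) →
  (∀ x, ∃ t, x ∈ X t) →
  (∀ t j, near t j → near j t) → (∀ t, (Finset.univ.filter fun j => near t j).card ≤ ν) →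
  (∀ t j, t ≠ j → ¬ near t j →
    Disjoint (Nb adj (2 * K * (g + 1) + 1) (X t)) (Nb adj (2 * K * (g + 1) + 1) (X j))) →
  ∀ (Y : κ → Finset T) (near' : κ → κ → Prop) (K' M' : ℕ), (∀ t, (Y t).card ≤ M') →
  (∀ x, ∃ t, x ∈ Y t) → (∀ t j, t ≠ j → Disjoint (Y t) (Y j)) →
  (∀ t j, near' t j → near' j t) → (∀ t, (Finset.univ.filter fun j => near' t j).card ≤ ν) →
  (∀ t j, t ≠ j → ¬ near' t j →
    Disjoint (Nb adj (2 * K' * (g + 1) + 1) (Y t)) (Nb adj (2 * K' * (g + 1) + 1) (Y j))) →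
  ∀ (S : Submodule ℂ E) (θ : ℝ), (∀ u ∈ S, ∑ x, eps V x u ≤ θ * ‖u‖ ^ 2) → ∀ n n' : ℕ,
  C * θ + Fintype.card ι * (C * M * ρ ^ K) < n →
  C * n + (n * M : ℕ) * (C * M' * ρ ^ K') < n' →
  ∀ δ : ℕ, (∀ F : Finset κ, F.card < n' →
    Module.finrank ℂ (G V (Finset.univ \ F.biUnion Y)) ≤ δ) →
  Module.finrank ℂ S ≤ (Fintype.card ι + 1) ^ n * ((n * M + 1) ^ n' * δ)

/-- D9. Growth on the torus. -/
def StmGrow : Prop := ∀ (R L : ℕ) [NeZero L], 1 ≤ R → Grow (adjR R L) (4 * (R : ℝ) ^ 2)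

/-- D10. The number of low energy states is polynomial. -/
def StmFew2 : Prop := ∀ (d R : ℕ) (h : BoxOp d R), 1 ≤ d → 1 ≤ R → h.PosSemidef →
  ∀ (Δ A₀ : ℝ) (a w₀ : ℕ), 0 < Δ → 0 ≤ A₀ →
  (∃ L₀ : ℕ, ∀ (L : ℕ) [NeZero L], L₀ ≤ L → GapAll h L Δ ∧
    ∀ (w : ℕ) (C : Finset (Site L)), w₀ ≤ w → w ≤ L →
      (Module.finrank ℂ (offSpace h L w C) : ℝ) ≤ Real.exp (A₀ * C.card * (w : ℝ) ^ a)) →
  ∃ (C : ℝ) (L₀ : ℕ), 0 < C ∧ ∀ (L : ℕ) [NeZero L], L₀ ≤ L →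
    ∀ (hH : (ham h L).IsHermitian) (m : ℕ),
      (Pool.Agent.Results.MP_953b23_mp.ThermalCriterion.numStates hH m : ℝ) ≤
        Real.exp (C * (m + 1) * Real.log L)

/-- D11. Gapped families. -/
def StmFam2 : Prop := ∀ (d R : ℕ) (h : BoxOp d R), 1 ≤ R → h.PosSemidef →
  ∀ (Δ A₀ : ℝ) (a w₀ : ℕ), 0 < Δ →
  (∃ L₀ : ℕ, ∀ (L : ℕ) [NeZero L], L₀ ≤ L → GapAll h L Δ ∧
    ∀ (w : ℕ) (C : Finset (Site L)), w₀ ≤ w → w ≤ L →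
      (Module.finrank ℂ (offSpace h L w C) : ℝ) ≤ Real.exp (A₀ * C.card * (w : ℝ) ^ a)) →
  ∀ Ψ : ∀ L : ℕ, (Site L → Fin d) → ℂ,
  (∃ L₀ : ℕ, ∀ (L : ℕ) [NeZero L], L₀ ≤ L → normSq (Ψ L) = 1 ∧ ham h L *ᵥ Ψ L = 0) →
  Pool.Agent.Results.MP_953b23_mp.OverlapBoosting.GappedFamily h Δ Ψ ∧
    ∃ L₀ : ℕ, ∀ (L : ℕ) [NeZero L], L₀ ≤ L →
      Pool.Agent.Results.MP_953b23_mp.ThermalCriterion.energy (ham h L) (Ψ L) = 0

end Pool.Agent.N658.FF
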