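import Pool.Agent.N281.FF.Few

/-! # Counting eigenvalues below a threshold -/

set_option autoImplicit false

noncomputable section

namespace Pool.Agent.N658.FF

open Pool.Agent.TH235.PP Pool.Agent.Results.MP_953b23_mp.ThermalCriterion
open scoped BigOperators InnerProductSpace Matrix ComplexOrder

/-- A subspace of vectors of energy at most `E` has at most the dimension of the number of
eigenvalues up to `E`. -/
theorem finrank_le_numStates {n : Type} [Fintype n] [DecidableEq n] {H : Matrix n n ℂ}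
    (hH : H.IsHermitian) (E : ℝ) (S : Submodule ℂ (EuclideanSpace ℂ n))
    (hS : ∀ u ∈ S, (ip u.ofLp (H *ᵥ u.ofLp)).re ≤ E * ‖u‖ ^ 2) :
    Module.finrank ℂ S ≤ numStates hH E := by
  classical
  set b := hH.eigenvectorBasis with hb
  set J := {j : n // hH.eigenvalues j ≤ E} with hJ
  let F : S →ₗ[ℂ] (J → ℂ) :=
    LinearMap.pi fun j => (innerₛₗ ℂ (b j.1)).comp S.subtype
  have hF : ∀ (u : S) (j : J), F u j = ⟪b j.1, (u : EuclideanSpace ℂ n)⟫_ℂ := fun u j => rfl
  have hinj : Function.Injective F := by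
    rw [injective_iff_map_eq_zero]
    intro u hu
    have h0 : ∀ j, hH.eigenvalues j ≤ E → ⟪b j, (u : EuclideanSpace ℂ n)⟫_ℂ = 0 := by
      intro j hj
      have := congrFun hu (⟨j, hj⟩ : J)
      rw [hF] at this
      exact this
    set T := Matrix.toEuclideanLin H with hT
    have hTb : ∀ j, T (b j) = (hH.eigenvalues j : ℂ) • b j := by
      intro j
      have h1 : T (b j) = WithLp.toLp 2 (H *ᵥ (b j).ofLp) := rfl
      have h2 := hH.mulVec_eigenvectorBasis j
      rw [h1]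
      rw [hb]
      rw [h2]
      rfl
    have hsum : T u = ∑ j, (⟪b j, (u : EuclideanSpace ℂ n)⟫_ℂ * (hH.eigenvalues j : ℂ)) • b j := by
      conv_lhs => rw [← b.sum_repr' (u : EuclideanSpace ℂ n)]
      rw [map_sum]
      refine Finset.sum_congr rfl fun j _ => ?_
      rw [map_smul, hTb, smul_smul]
    have hip : ip (u : EuclideanSpace ℂ n).ofLp (H *ᵥ (u : EuclideanSpace ℂ n).ofLp) =
        ⟪(u : EuclideanSpace ℂ n), T u⟫_ℂ := by
      rw [ip_eq]
      rfl
    have h1 := hS u u.2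
    rw [hip, hsum, inner_sum] at h1
    have hn : ‖(u : EuclideanSpace ℂ n)‖ ^ 2 = ∑ j, ‖⟪b j, (u : EuclideanSpace ℂ n)⟫_ℂ‖ ^ 2 :=
      (b.sum_sq_norm_inner_right _).symm
    rw [hn, Finset.mul_sum, Complex.re_sum] at h1
    have h2 : ∀ j ∈ (Finset.univ : Finset n), E * ‖⟪b j, (u : EuclideanSpace ℂ n)⟫_ℂ‖ ^ 2 ≤
        (⟪(u : EuclideanSpace ℂ n), (⟪b j, (u : EuclideanSpace ℂ n)⟫_ℂ *
          (hH.eigenvalues j : ℂ)) • b j⟫_ℂ).re := by
      intro j _
      rw [inner_smul_right]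
      have h3 : ⟪(u : EuclideanSpace ℂ n), b j⟫_ℂ =
        (starRingEnd ℂ) ⟪b j, (u : EuclideanSpace ℂ n)⟫_ℂ := (inner_conj_symm _ _).symm
      have h4 : (⟪b j, (u : EuclideanSpace ℂ n)⟫_ℂ * (hH.eigenvalues j : ℂ) *
          ⟪(u : EuclideanSpace ℂ n), b j⟫_ℂ).re =
          hH.eigenvalues j * ‖⟪b j, (u : EuclideanSpace ℂ n)⟫_ℂ‖ ^ 2 := by
        rw [h3, mul_right_comm, Complex.mul_conj, Complex.normSq_eq_norm_sq]
        norm_cast
        rw [mul_comm]
      rw [h4]
      rcases le_or_gt (hH.eigenvalues j) E with hj | hj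
      · rw [h0 j hj]
        simp
      · exact mul_le_mul_of_nonneg_right hj.le (by positivity)
    have h5 := (Finset.sum_eq_sum_iff_of_le h2).1 (le_antisymm (Finset.sum_le_sum h2) h1)
    have h6 : ∀ j, ⟪b j, (u : EuclideanSpace ℂ n)⟫_ℂ = 0 := by
      intro j
      rcases le_or_gt (hH.eigenvalues j) E with hj | hj
      · exact h0 j hj
      · have h7 := h5 j (Finset.mem_univ j)
        rw [inner_smul_right] at h7
        have h3 : ⟪(u : EuclideanSpace ℂ n), b j⟫_ℂ =
          (starRingEnd ℂ) ⟪b j, (u : EuclideanSpace ℂ n)⟫_ℂ := (inner_conj_symm _ _).symm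
        have h4 : (⟪b j, (u : EuclideanSpace ℂ n)⟫_ℂ * (hH.eigenvalues j : ℂ) *
            ⟪(u : EuclideanSpace ℂ n), b j⟫_ℂ).re =
            hH.eigenvalues j * ‖⟪b j, (u : EuclideanSpace ℂ n)⟫_ℂ‖ ^ 2 := by
          rw [h3, mul_right_comm, Complex.mul_conj, Complex.normSq_eq_norm_sq]
          norm_cast
          rw [mul_comm]
        rw [h4] at h7
        have h8 : (hH.eigenvalues j - E) * ‖⟪b j, (u : EuclideanSpace ℂ n)⟫_ℂ‖ ^ 2 = 0 := by
          linarith
        rcases mul_eq_zero.1 h8 with h9 | h9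
        · linarith
        · exact norm_eq_zero.1 (pow_eq_zero_iff (two_ne_zero) |>.1 h9)
    have h10 : ‖(u : EuclideanSpace ℂ n)‖ ^ 2 = 0 := by
      rw [hn]
      refine Finset.sum_eq_zero fun j _ => ?_
      rw [h6 j]
      simp
    have h11 : (u : EuclideanSpace ℂ n) = 0 :=
      norm_eq_zero.1 (pow_eq_zero_iff (two_ne_zero) |>.1 h10)
    exact Subtype.ext h11
  have h12 := LinearMap.finrank_le_finrank_of_injective hinj
  rw [Module.finrank_fintype_fun_eq_card] at h12
  refine h12.trans (le_of_eq ?_)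
  exact Fintype.card_subtype _

/-- Eigenvalues of a multiple. -/
theorem numStates_scale {n : Type} [Fintype n] [DecidableEq n] {H H' : Matrix n n ℂ}
    (hH : H.IsHermitian) (hH' : H'.IsHermitian) (c : ℝ) (hc : 0 ≤ c) (h : H' = (c : ℂ) • H) (E : ℝ) :
    numStates hH E ≤ numStates hH' (c * E) := by
  obtain ⟨S, hS1, hS2⟩ := Pool.Agent.N281.FF.low hH E
  rw [← hS1]
  refine finrank_le_numStates hH' _ S fun u hu => ?_
  have h1 : ip u.ofLp (H' *ᵥ u.ofLp) = (c : ℂ) * ip u.ofLp (H *ᵥ u.ofLp) := by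
    rw [h, Matrix.smul_mulVec]
    unfold ip
    rw [Finset.mul_sum]
    refine Finset.sum_congr rfl fun s _ => ?_
    rw [Pi.smul_apply, smul_eq_mul]
    ring
  rw [h1, Complex.re_ofReal_mul, mul_assoc]
  exact mul_le_mul_of_nonneg_left (hS2 u hu) hc

end Pool.Agent.N658.FF
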