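import Pool.Agent.N658.FF.Stm5
import Pool.Agent.N658.FF.Num
import Pool.Agent.N478.FF.Few2
import Pool.Agent.N82.FF.Two
import Pool.Agent.N690.FF.Level
import Pool.Agent.N383.FF.Low
import Pool.Agent.N494.FF.Grow
import Pool.Agent.N55.FF.Fam2
import Pool.Agent.N284.FF.Fill
import Pool.Agent.N558.FF.Tree2
import Pool.Agent.N75.FF.Step
import Pool.Agent.N141.FF.Far
import Pool.Agent.N49.FF.Trans
import Pool.Agent.N717.FF.Cone
import Pool.Agent.N364.FF.DL
import Pool.Agent.N887.FF.Color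
import Pool.Agent.N711.FF.Impl
import Pool.Agent.N401.FF.Loc
import Pool.Agent.N322.FF.GapT
import Pool.Agent.N413.FF.En
import Pool.Agent.N152.FF.Geo
import Pool.Agent.N814.FF.Finr
import Pool.Agent.Results.MP_953b23_mp.PreservedScale

/-! # Frustration-free Hamiltonians: assembly -/

set_option autoImplicit false

noncomputable section

namespace Pool.Agent.N658.FF

open Pool.Agent.TH235.PP Pool.Agent.Results.MP_953b23_mp.ThermalCriterion
  Pool.Agent.Results.MP_953b23_mp.OverlapBoosting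
open scoped BigOperators InnerProductSpace Matrix Classical ComplexOrder

theorem two' : StmTwo :=
  Pool.Agent.N82.FF.two
    (Pool.Agent.N690.FF.level Pool.Agent.N887.FF.color
      (Pool.Agent.N75.FF.step
        (Pool.Agent.N49.FF.trans Pool.Agent.N887.FF.color
          (Pool.Agent.N717.FF.cone Pool.Agent.N364.FF.dl))
        (Pool.Agent.N141.FF.far Pool.Agent.N887.FF.color
          (Pool.Agent.N711.FF.impl Pool.Agent.N364.FF.dl)))
      Pool.Agent.N558.FF.tree2)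
    Pool.Agent.N383.FF.low

theorem few2' : StmFew2 :=
  Pool.Agent.N478.FF.few2 two' Pool.Agent.N401.FF.loc Pool.Agent.N322.FF.gapT
    Pool.Agent.N413.FF.enB Pool.Agent.N152.FF.geo Pool.Agent.N814.FF.finr
    Pool.Agent.N494.FF.grow

/-- the degeneracy hypothesis on the torus of side `L` -/
def Deg {d R : ℕ} (h : BoxOp d R) (L : ℕ) [NeZero L] (A₀ : ℝ) (a w₀ : ℕ) : Prop :=
  ∀ (w : ℕ) (C : Finset (Site L)), w₀ ≤ w → w ≤ L →
    (Module.finrank ℂ (offSpace h L w C) : ℝ) ≤ Real.exp (A₀ * C.card * (w : ℝ) ^ a)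

theorem finrank_all {d L : ℕ} [NeZero L] (S : Submodule ℂ ((Site L → Fin d) → ℂ)) (hd : 1 ≤ d) :
    (Module.finrank ℂ S : ℝ) ≤ Real.exp (Real.log d * (L : ℝ) ^ 2) := by
  have h1 : Module.finrank ℂ S ≤ d ^ (L ^ 2) := by
    refine (Submodule.finrank_le S).trans (le_of_eq ?_)
    rw [Module.finrank_fintype_fun_eq_card, Fintype.card_fun, Fintype.card_fin, Fintype.card_prod,
      ZMod.card, sq]
  have hd0 : (0 : ℝ) < d := by exact_mod_cast hd
  have h2 : Real.exp (Real.log d * (L : ℝ) ^ 2) = (d : ℝ) ^ (L ^ 2) := by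
    rw [mul_comm, ← Nat.cast_pow, Real.exp_nat_mul, Real.exp_log hd0]
  rw [h2]
  exact_mod_cast h1

/-- the degeneracy hypothesis for the interaction of the boxes -/
theorem deg_box {d R b : ℕ} {h : BoxOp d R} {h' : BoxOp d (R + b)} (hd : 1 ≤ d) {L : ℕ} [NeZero L]
    {A₀ : ℝ} (hA : 0 ≤ A₀) {a w₀ : ℕ} (hw₀ : w₀ ≤ L)
    (hoff : ∀ (w : ℕ) (C : Finset (Site L)), offSpace h' L w C ≤
      offSpace h L (w + 2 * b) (C.image fun c => (c.1 - (b : ZMod L), c.2 - (b : ZMod L))))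
    (hdeg : Deg h L A₀ a w₀) :
    Deg h' L (A₀ * (1 + 2 * b) ^ a + Real.log d * (1 + 2 * b) ^ 2) (max a 2) (max w₀ 1) := by
  intro w C hw hwL
  have hw1 : 1 ≤ w := (le_max_right _ _).trans hw
  have hw1' : (1 : ℝ) ≤ w := by exact_mod_cast hw1
  have hlog : 0 ≤ Real.log d := Real.log_nonneg (by exact_mod_cast hd)
  have hb : (0 : ℝ) ≤ b := Nat.cast_nonneg b
  set C' := C.image fun c => (c.1 - (b : ZMod L), c.2 - (b : ZMod L)) with hC'
  have hmono : Module.finrank ℂ (offSpace h' L w C) ≤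
      Module.finrank ℂ (offSpace h L (w + 2 * b) C') := Submodule.finrank_mono (hoff w C)
  have hmono' : (Module.finrank ℂ (offSpace h' L w C) : ℝ) ≤
      Module.finrank ℂ (offSpace h L (w + 2 * b) C') := by exact_mod_cast hmono
  have hpa : (w : ℝ) ^ a ≤ (w : ℝ) ^ (max a 2) := pow_le_pow_right₀ hw1' (le_max_left _ _)
  have hp2 : (w : ℝ) ^ 2 ≤ (w : ℝ) ^ (max a 2) := pow_le_pow_right₀ hw1' (le_max_right _ _)
  have hcard : (C'.card : ℝ) ≤ C.card := by exact_mod_cast Finset.card_image_le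
  have hCc : (0 : ℝ) ≤ C.card := Nat.cast_nonneg _
  have hww : (w : ℝ) + 2 * b ≤ (1 + 2 * b) * w := by nlinarith
  have hX : (0 : ℝ) ≤ A₀ * (1 + 2 * b) ^ a * C.card * (w : ℝ) ^ (max a 2) := by positivity
  have hY : (0 : ℝ) ≤ Real.log d * (1 + 2 * b) ^ 2 * C.card * (w : ℝ) ^ (max a 2) := by positivity
  rcases Finset.eq_empty_or_nonempty C with hC | hC
  · subst hC
    have h1 : offSpace h L (w + 2 * b) (∅ : Finset (Site L)) = offSpace h L L ∅ := by
      ext ψ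
      constructor
      · intro hψ u _
        exact hψ u fun x c hc => absurd hc (Finset.notMem_empty c)
      · intro hψ u _
        exact hψ u fun x c hc => absurd hc (Finset.notMem_empty c)
    have h2 : C' = ∅ := by rw [hC']; simp
    rw [h2, h1] at hmono'
    refine hmono'.trans ((hdeg L ∅ hw₀ le_rfl).trans ?_)
    simp
  · have hC1 : (1 : ℝ) ≤ C.card := by exact_mod_cast hC.card_pos
    rcases le_or_gt (w + 2 * b) L with hL | hL
    · refine hmono'.trans ((hdeg (w + 2 * b) C' (by have := le_max_left w₀ 1; omega) hL).trans ?_)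
      apply Real.exp_le_exp.2
      have e1 : ((w + 2 * b : ℕ) : ℝ) ^ a ≤ ((1 + 2 * b) * (w : ℝ)) ^ a := by
        apply pow_le_pow_left₀ (by positivity)
        push_cast
        exact hww
      calc A₀ * C'.card * ((w + 2 * b : ℕ) : ℝ) ^ a
          ≤ A₀ * C.card * ((1 + 2 * b) * (w : ℝ)) ^ a := by gcongr
        _ = A₀ * (1 + 2 * b) ^ a * C.card * (w : ℝ) ^ a := by rw [mul_pow]; ring
        _ ≤ A₀ * (1 + 2 * b) ^ a * C.card * (w : ℝ) ^ (max a 2) := by gcongr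
        _ ≤ _ := by nlinarith
    · refine (finrank_all _ hd).trans ?_
      apply Real.exp_le_exp.2
      have e1 : (L : ℝ) ≤ w + 2 * b := by exact_mod_cast hL.le
      have e2 : (L : ℝ) ^ 2 ≤ ((1 + 2 * b) * (w : ℝ)) ^ 2 :=
        pow_le_pow_left₀ (Nat.cast_nonneg L) (e1.trans hww) 2
      calc Real.log d * (L : ℝ) ^ 2 ≤ Real.log d * ((1 + 2 * b) * (w : ℝ)) ^ 2 := by gcongr
        _ = Real.log d * (1 + 2 * b) ^ 2 * 1 * (w : ℝ) ^ 2 := by ring
        _ ≤ Real.log d * (1 + 2 * b) ^ 2 * C.card * (w : ℝ) ^ (max a 2) := by gcongr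
        _ ≤ _ := by nlinarith

/-- Main theorem of part one: frustration-free Hamiltonians whose thick subfamilies are gapped. -/
theorem main (hThick : StmThick) {d R b : ℕ} (hd : 1 ≤ d) (hR : 1 ≤ R) (hb : 1 ≤ b)
    (h : BoxOp d R) (hh : h.PosSemidef) {Δ A₀ : ℝ} (hΔ : 0 < Δ) (hA : 0 ≤ A₀) (a w₀ : ℕ)
    (hyp : ∃ L₀ : ℕ, ∀ (L : ℕ) [NeZero L], L₀ ≤ L → GapThick h L b Δ ∧ Deg h L A₀ a w₀)
    (Ψ : ∀ L : ℕ, (Site L → Fin d) → ℂ)
    (hΨ : ∃ L₀ : ℕ, ∀ (L : ℕ) [NeZero L], L₀ ≤ L → normSq (Ψ L) = 1 ∧ ham h L *ᵥ Ψ L = 0) :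
    GappedFamily h (Δ / b ^ 2) Ψ ∧ (∃ C : ℝ, FewStates h Ψ 1 C) ∧
      ∀ c : ℝ, 0 < c → ∃ C' : ℝ, Approx Ψ 1 C' fun L => (L : ℝ) ^ (-c) := by
  obtain ⟨h', hh', hprop⟩ := hThick d R b h hR hb hh
  obtain ⟨L₁, hyp⟩ := hyp
  obtain ⟨L₂, hΨ⟩ := hΨ
  have hlog : 0 ≤ Real.log d := Real.log_nonneg (by exact_mod_cast hd)
  have hbR : (1 : ℝ) ≤ b := by exact_mod_cast hb
  have hA' : 0 ≤ A₀ * (1 + 2 * b) ^ a + Real.log d * (1 + 2 * b) ^ 2 := by positivity
  have hyp' : ∃ L₀ : ℕ, ∀ (L : ℕ) [NeZero L], L₀ ≤ L → GapAll h' L Δ ∧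
      ∀ (w : ℕ) (C : Finset (Site L)), max w₀ 1 ≤ w → w ≤ L →
      (Module.finrank ℂ (offSpace h' L w C) : ℝ) ≤
        Real.exp ((A₀ * (1 + 2 * b) ^ a + Real.log d * (1 + 2 * b) ^ 2) * C.card *
          (w : ℝ) ^ (max a 2)) := by
    refine ⟨max (max L₁ (R + b)) w₀, fun L _ hL => ?_⟩
    have h1 : L₁ ≤ L := (le_max_left _ _).trans ((le_max_left _ _).trans hL)
    have h2 : R + b ≤ L := (le_max_right _ _).trans ((le_max_left _ _).trans hL)
    have h3 : w₀ ≤ L := (le_max_right _ _).trans hL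
    obtain ⟨_, hg, hoff⟩ := hprop L h2
    exact ⟨hg Δ (hyp L h1).1, deg_box hd hA h3 hoff (hyp L h1).2⟩
  have hΨ' : ∃ L₀ : ℕ, ∀ (L : ℕ) [NeZero L], L₀ ≤ L → normSq (Ψ L) = 1 ∧ ham h' L *ᵥ Ψ L = 0 := by
    refine ⟨max L₂ (R + b), fun L _ hL => ?_⟩
    obtain ⟨h1, h2⟩ := hΨ L ((le_max_left _ _).trans hL)
    refine ⟨h1, ?_⟩
    rw [(hprop L ((le_max_right _ _).trans hL)).1, Matrix.smul_mulVec, h2, smul_zero]
  obtain ⟨hfam', L₃, hE'⟩ := Pool.Agent.N55.FF.fam2 d (R + b) h' (by omega) hh' Δ _ _ _ hΔ hyp' Ψ hΨ'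
  obtain ⟨C, L₄, hC, hfew'⟩ := few2' d (R + b) h' hd (by omega) hh' Δ _ _ _ hΔ hA' hyp'
  have hFS' : FewStates h' Ψ 1 C := by
    refine ⟨max L₃ L₄, fun L _ hL hH m => ?_⟩
    rw [hE' L ((le_max_left _ _).trans hL), zero_add, pow_one]
    exact hfew' L ((le_max_right _ _).trans hL) hH m
  have hb2 : (0 : ℝ) < (b : ℝ) ^ 2 := by positivity
  have hscale : ∀ (L : ℕ) [NeZero L], R + b ≤ L → ham h' L = (((b : ℝ) ^ 2 : ℝ) : ℂ) • ham h L := by
    intro L _ hL
    rw [(hprop L hL).1]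
    push_cast
    rfl
  have hgapped : GappedFamily h (Δ / b ^ 2) Ψ := by
    refine ⟨hR, hh.1, by positivity, ?_⟩
    obtain ⟨L₅, hg⟩ := hfam'.ground
    refine ⟨max L₅ (max L₂ (R + b)), fun L _ hL => ?_⟩
    obtain ⟨hn, E, e1, e2, e3⟩ := hg L ((le_max_left _ _).trans hL)
    have hRb : R + b ≤ L := (le_max_right _ _).trans ((le_max_right _ _).trans hL)
    have h0 := (hΨ L ((le_max_left _ _).trans ((le_max_right _ _).trans hL))).2
    have hs := hscale L hRb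
    have hne : Ψ L ≠ 0 := by
      intro hz
      rw [hz] at hn
      simp [normSq] at hn
    have hE : (E : ℂ) = 0 := by
      have h1 : ham h' L *ᵥ Ψ L = 0 := by rw [hs, Matrix.smul_mulVec, h0, smul_zero]
      rw [h1] at e1
      exact (smul_eq_zero.1 e1.symm).resolve_right hne
    have hE' : E = 0 := by exact_mod_cast hE
    refine ⟨hn, 0, ?_, ?_, ?_⟩
    · rw [Complex.ofReal_zero, zero_smul]
      exact h0
    · intro φ hφ
      rw [Complex.ofReal_zero, zero_smul] at hφ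
      apply e2
      rw [hE, zero_smul, hs, Matrix.smul_mulVec, hφ, smul_zero]
    · intro E' φ hφ0 hφ
      have h1 : ham h' L *ᵥ φ = (((b : ℝ) ^ 2 * E' : ℝ) : ℂ) • φ := by
        rw [hs, Matrix.smul_mulVec, hφ, smul_smul, ← Complex.ofReal_mul]
      rcases e3 ((b : ℝ) ^ 2 * E') φ hφ0 h1 with h2 | h2
      · left
        rw [hE'] at h2
        exact (mul_eq_zero.1 h2).resolve_left hb2.ne'
      · right
        rw [hE', zero_add] at h2
        rw [zero_add, div_le_iff₀ hb2]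
        linarith
  refine ⟨hgapped, ⟨C * b ^ 2, max (max L₂ (R + b)) L₄, ?_⟩, ?_⟩
  · intro L _ hL hH m
    have hRb : R + b ≤ L := (le_max_right _ _).trans ((le_max_left _ _).trans hL)
    have h0 := (hΨ L ((le_max_left _ _).trans ((le_max_left _ _).trans hL))).2
    have hen : energy (ham h L) (Ψ L) = 0 := by
      unfold energy
      rw [h0]
      simp [ip]
    have hs := hscale L hRb
    have hH' : (ham h' L).IsHermitian := by
      rw [hs]
      unfold Matrix.IsHermitian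
      rw [Matrix.conjTranspose_smul, hH.eq]
      congr 1
      rw [Complex.star_def, Complex.conj_ofReal]
    rw [hen, zero_add, pow_one]
    have h1 := numStates_scale hH hH' ((b : ℝ) ^ 2) hb2.le hs m
    have h2 : (b : ℝ) ^ 2 * (m : ℝ) = ((b ^ 2 * m : ℕ) : ℝ) := by push_cast; ring
    rw [h2] at h1
    have h3 := hfew' L ((le_max_right _ _).trans hL) hH' (b ^ 2 * m)
    have h4 : (numStates hH (m : ℝ) : ℝ) ≤ (numStates hH' ((b ^ 2 * m : ℕ) : ℝ) : ℝ) := by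
      exact_mod_cast h1
    refine (h4.trans h3).trans (Real.exp_le_exp.2 ?_)
    have hlL : 0 ≤ Real.log L := Real.log_natCast_nonneg L
    have hb1 : (1 : ℝ) ≤ (b : ℝ) ^ 2 := one_le_pow₀ hbR
    apply mul_le_mul_of_nonneg_right _ hlL
    push_cast
    nlinarith [mul_nonneg hC.le (sub_nonneg.2 hb1)]
  · exact Pool.Agent.Results.MP_953b23_mp.PreservedScale.result.2.2 d (R + b) h' Δ Ψ hfam' 1 le_rfl C
      (Or.inr hFS')

end Pool.Agent.N658.FF
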