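import Pool.Agent.N658.FF.Asm
import Pool.Agent.N692.FF.Thick

/-! # Frustration-free Hamiltonians: the final form -/

set_option autoImplicit false

noncomputable section

namespace Pool.Agent.N658.FF

open Pool.Agent.TH235.PP Pool.Agent.Results.MP_953b23_mp.ThermalCriterion
  Pool.Agent.Results.MP_953b23_mp.OverlapBoosting
open scoped BigOperators InnerProductSpace Matrix Classical ComplexOrder

/-- degeneracy hypothesis, for all large sizes -/
def DegF {d R : ℕ} (h : BoxOp d R) : Prop :=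
  ∃ (A₀ : ℝ) (a w₀ L₀ : ℕ), ∀ (L : ℕ) [NeZero L], L₀ ≤ L → ∀ (w : ℕ) (C : Finset (Site L)),
    w₀ ≤ w → w ≤ L →
      (Module.finrank ℂ (offSpace h L w C) : ℝ) ≤ Real.exp (A₀ * C.card * (w : ℝ) ^ a)

/-- filling hypothesis, for all large sizes -/
def FillF {d R : ℕ} (h : BoxOp d R) (Ψ : ∀ L : ℕ, (Site L → Fin d) → ℂ) : Prop :=
  ∃ κ w₀ L₀ : ℕ, ∀ (L : ℕ) [NeZero L], L₀ ≤ L →
    (∀ φ : (Site L → Fin d) → ℂ, ham h L *ᵥ φ = 0 → ∃ c : ℂ, φ = c • Ψ L) ∧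
    ∀ w : ℕ, w₀ ≤ w → w + 2 * w ^ κ ≤ L → Fill h L (w ^ κ) w

theorem fill_to_deg {d R : ℕ} (hd : 1 ≤ d) {h : BoxOp d R} (hh : h.PosSemidef)
    {Ψ : ∀ L : ℕ, (Site L → Fin d) → ℂ} (hF : FillF h Ψ) : DegF h := by
  obtain ⟨κ, w₀, L₀, hF⟩ := hF
  refine ⟨18 * Real.log d, 2 * κ + 2, max w₀ 1, L₀, fun L _ hL w C hw hwL => ?_⟩
  obtain ⟨hu, hfill⟩ := hF L hL
  have hw1 : 1 ≤ w := (le_max_right _ _).trans hw
  have hw1' : (1 : ℝ) ≤ w := by exact_mod_cast hw1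
  have hlog : 0 ≤ Real.log d := Real.log_nonneg (by exact_mod_cast hd)
  have h1 : Module.finrank ℂ (offSpace h L w ∅) ≤ 1 := by
    have h2 : offSpace h L w ∅ ≤ Submodule.span ℂ {Ψ L} := by
      intro ψ hψ
      have h3 : ham h L *ᵥ ψ = 0 := by
        rw [Pool.Agent.N424.FF.ham_mulVec]
        refine Finset.sum_eq_zero fun u _ => hψ u fun x c hc => absurd hc (Finset.notMem_empty c)
      obtain ⟨c, hc⟩ := hu ψ h3
      rw [hc]
      exact Submodule.smul_mem _ _ (Submodule.mem_span_singleton_self _)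
    refine (Submodule.finrank_mono h2).trans ?_
    refine (finrank_span_le_card {Ψ L}).trans ?_
    simp
  have h2 := Pool.Agent.N284.FF.fill d R h L (w ^ κ) w hd hw1 h1
    (hfill w ((le_max_left _ _).trans hw)) C
  refine h2.trans (Real.exp_le_exp.2 ?_)
  have hwk : (1 : ℝ) ≤ (w : ℝ) ^ κ := one_le_pow₀ hw1'
  have h3 : (1 + 2 * ((w ^ κ : ℕ) : ℝ)) ^ 2 ≤ (3 * (w : ℝ) ^ κ) ^ 2 := by
    apply pow_le_pow_left₀ (by positivity)
    push_cast
    linarith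
  calc 2 * Real.log d * (1 + 2 * ((w ^ κ : ℕ) : ℝ)) ^ 2 * C.card * (w : ℝ) ^ 2
      ≤ 2 * Real.log d * (3 * (w : ℝ) ^ κ) ^ 2 * C.card * (w : ℝ) ^ 2 := by gcongr
    _ = 18 * Real.log d * C.card * (w : ℝ) ^ (2 * κ + 2) := by ring

/-- Final form. -/
theorem final {d R b : ℕ} (hd : 1 ≤ d) (hR : 1 ≤ R) (hb : 1 ≤ b)
    (h : BoxOp d R) (hh : h.PosSemidef) {Δ : ℝ} (hΔ : 0 < Δ)
    (Ψ : ∀ L : ℕ, (Site L → Fin d) → ℂ)
    (hΨ : ∃ L₀ : ℕ, ∀ (L : ℕ) [NeZero L], L₀ ≤ L →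
      normSq (Ψ L) = 1 ∧ ham h L *ᵥ Ψ L = 0 ∧ GapThick h L b Δ)
    (hP : DegF h ∨ FillF h Ψ) :
    GappedFamily h Δ Ψ ∧
      (∃ C L₀ : ℕ, ∀ (L : ℕ) [NeZero L], L₀ ≤ L → ∀ (hH : (ham h L).IsHermitian) (m : ℕ),
        numStates hH m ≤ L ^ (C * (m + 1))) ∧
      ∀ c : ℝ, 0 < c → ∃ C L₀ : ℕ, ∀ (L : ℕ) [NeZero L], L₀ ≤ L →
        ∃ (D : ℕ) (ψ : (Site L → Fin d) → ℂ), D ≤ L ^ C ∧ IsPEPS D ψ ∧
          Real.sqrt (normSq (ψ - Ψ L)) ≤ (L : ℝ) ^ (-c) := by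
  have hD : DegF h := hP.elim id (fill_to_deg hd hh)
  obtain ⟨A₀, a, w₀, L₁, hD⟩ := hD
  obtain ⟨L₂, hΨ⟩ := hΨ
  have hyp : ∃ L₀ : ℕ, ∀ (L : ℕ) [NeZero L], L₀ ≤ L → GapThick h L b Δ ∧ Deg h L (max A₀ 0) a w₀ := by
    refine ⟨max L₁ L₂, fun L _ hL => ⟨(hΨ L ((le_max_right _ _).trans hL)).2.2, ?_⟩⟩
    intro w C hw hwL
    refine (hD L ((le_max_left _ _).trans hL) w C hw hwL).trans (Real.exp_le_exp.2 ?_)
    gcongr
    exact le_max_left _ _
  obtain ⟨hG, ⟨C, L₃, hF⟩, hA⟩ := main Pool.Agent.N692.FF.thickB hd hR hb h hh hΔ (le_max_right A₀ 0)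
    a w₀ hyp Ψ ⟨L₂, fun L _ hL => ⟨(hΨ L hL).1, (hΨ L hL).2.1⟩⟩
  have hpow : ∀ (x y : ℝ) (L : ℕ), 2 ≤ L → 0 ≤ y →
      Real.exp (x * y * Real.log L) ≤ (L : ℝ) ^ ((⌈|x|⌉₊ : ℝ) * y) := by
    intro x y L hL hy
    have hL0 : (0 : ℝ) < L := by exact_mod_cast (by omega : 0 < L)
    rw [Real.rpow_def_of_pos hL0, mul_comm (Real.log L)]
    apply Real.exp_le_exp.2
    have hlL : 0 ≤ Real.log L := Real.log_natCast_nonneg L
    have e1 : x ≤ (⌈|x|⌉₊ : ℝ) := (le_abs_self x).trans (Nat.le_ceil _)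
    apply mul_le_mul_of_nonneg_right _ hlL
    exact mul_le_mul_of_nonneg_right e1 hy
  refine ⟨⟨hR, hh.1, hΔ, ?_⟩, ⟨⌈|C|⌉₊, max (max L₂ L₃) 2, ?_⟩, ?_⟩
  · obtain ⟨L₄, hG4⟩ := hG.ground
    refine ⟨max L₂ L₄, fun L _ hL => ?_⟩
    obtain ⟨hn, h0, hgap⟩ := hΨ L ((le_max_left _ _).trans hL)
    obtain ⟨_, E, e1, e2, _⟩ := hG4 L ((le_max_right _ _).trans hL)
    have hne : Ψ L ≠ 0 := by
      intro hz
      rw [hz] at hn
      simp [normSq] at hn
    have hE : (E : ℂ) = 0 := by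
      rw [h0] at e1
      exact (smul_eq_zero.1 e1.symm).resolve_right hne
    refine ⟨hn, 0, ?_, ?_, ?_⟩
    · rw [Complex.ofReal_zero, zero_smul]
      exact h0
    · intro φ hφ
      apply e2
      rw [hφ, hE, Complex.ofReal_zero]
    · intro E' φ hφ hE'
      by_cases hz : E' = 0
      · exact Or.inl hz
      · right
        have hthick : thick (L := L) b Finset.univ = Finset.univ := by
          apply Finset.eq_univ_of_forall
          intro u
          unfold thick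
          rw [Finset.mem_biUnion]
          refine ⟨u, Finset.mem_univ _, ?_⟩
          rw [Finset.mem_image]
          refine ⟨(⟨0, hb⟩, ⟨0, hb⟩), Finset.mem_univ _, ?_⟩
          simp [sh]
        have horth : ∀ ψ : (Site L → Fin d) → ℂ,
            (∀ u ∈ thick (L := L) b Finset.univ, term h u *ᵥ ψ = 0) → ip ψ φ = 0 := by
          intro ψ hψ
          rw [hthick] at hψ
          have hz' : ham h L *ᵥ ψ = 0 := by
            rw [Pool.Agent.N424.FF.ham_mulVec]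
            exact Finset.sum_eq_zero hψ
          have hH : (ham h L).IsHermitian := by
            unfold ham
            exact (Matrix.posSemidef_sum _ fun u _ => Pool.Agent.N413.FF.term_psd hh u).1
          have h1 : ip ψ (ham h L *ᵥ φ) = 0 := by
            have e1 : ip ψ (ham h L *ᵥ φ) = star ψ ⬝ᵥ (ham h L *ᵥ φ) := rfl
            have e2 : star ψ ᵥ* ham h L = star (ham h L *ᵥ ψ) := by
              rw [Matrix.star_mulVec, hH.eq]
            rw [e1, Matrix.dotProduct_mulVec, e2, hz', star_zero, zero_dotProduct]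
          rw [hE', Pool.Agent.N424.FF.ip_smul_right] at h1
          rcases mul_eq_zero.1 h1 with h2 | h2
          · exact absurd (Complex.ofReal_eq_zero.1 h2) hz
          · exact h2
        have h1 := hgap Finset.univ φ horth
        rw [hthick, ← Pool.Agent.N424.FF.re_ip_ham, hE', Pool.Agent.N424.FF.ip_smul_right,
          Complex.re_ofReal_mul, Pool.Agent.N424.FF.ip_self_re] at h1
        have := Pool.Agent.N424.FF.normSq_pos hφ
        rw [zero_add]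
        exact le_of_mul_le_mul_right h1 this
  · intro L _ hL hH m
    have hL2 : 2 ≤ L := (le_max_right _ _).trans hL
    have h0 := (hΨ L ((le_max_left _ _).trans ((le_max_left _ _).trans hL))).2.1
    have hen : energy (ham h L) (Ψ L) = 0 := by
      unfold energy
      rw [h0]
      simp [ip]
    have h1 := hF L ((le_max_right _ _).trans ((le_max_left _ _).trans hL)) hH m
    rw [hen, zero_add, pow_one] at h1
    have h2 := h1.trans (hpow C (m + 1) L hL2 (by positivity))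
    have h3 : (L : ℝ) ^ ((⌈|C|⌉₊ : ℝ) * ((m : ℝ) + 1)) = ((L ^ (⌈|C|⌉₊ * (m + 1)) : ℕ) : ℝ) := by
      rw [Nat.cast_pow, ← Real.rpow_natCast]
      push_cast
      rfl
    rw [h3] at h2
    exact_mod_cast h2
  · intro c hc
    obtain ⟨C', L₄, hA'⟩ := hA c hc
    refine ⟨⌈|C'|⌉₊, max L₄ 2, fun L _ hL => ?_⟩
    have hL2 : 2 ≤ L := (le_max_right _ _).trans hL
    obtain ⟨D, ψ, hD', hψ, herr⟩ := hA' L ((le_max_left _ _).trans hL)
    refine ⟨D, ψ, ?_, hψ, herr⟩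
    have h1 := hpow C' 1 L hL2 zero_le_one
    rw [mul_one, mul_one, Real.rpow_natCast] at h1
    rw [pow_one] at hD'
    exact_mod_cast hD'.trans h1

end Pool.Agent.N658.FF
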