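import Mathlib

/-! # Frustration-free Hamiltonians: abstract definitions and statements of the jobs

`V x` is the ground space of the term `x` (a subspace of a finite dimensional Hilbert space `E`),
`G V A` the common ground space of the terms in `A`, `pr` the orthogonal projection. -/

open scoped BigOperators InnerProductSpace Classical

noncomputable section

namespace Pool.Agent.N658.FF

variable {E : Type} [NormedAddCommGroup E] [InnerProductSpace ℂ E] [FiniteDimensional ℂ E]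
variable {T ι : Type}

/-- The common ground space of the terms in `A`. -/
def G (V : T → Submodule ℂ E) (A : Finset T) : Submodule ℂ E := ⨅ x ∈ A, V x

/-- The orthogonal projection onto a subspace. -/
abbrev pr (K : Submodule ℂ E) : E →L[ℂ] E := K.starProjection

/-- The gap of all subfamilies of the projections `1 - pr (V x)` is at least `Δ`. -/
def Gap (V : T → Submodule ℂ E) (Δ : ℝ) : Prop :=
  ∀ A : Finset T, ∀ ψ ∈ (G V A)ᗮ, Δ * ‖ψ‖ ^ 2 ≤ ∑ x ∈ A, ‖ψ - pr (V x) ψ‖ ^ 2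

/-- The terms at distance at most `j` from `S`. -/
def Nb [Fintype T] [DecidableEq T] (adj : T → T → Prop) : ℕ → Finset T → Finset T
  | 0, S => S
  | j + 1, S => Nb adj j S ∪ Finset.univ.filter fun y => ∃ x ∈ Nb adj j S, adj x y

/-- The structure of the terms: a symmetric relation such that the projections of unrelated terms
commute, every term is related to at most `g` terms. -/
structure Loc [Fintype T] (V : T → Submodule ℂ E) (adj : T → T → Prop) (g : ℕ) : Prop where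
  symm : ∀ x y, adj x y → adj y x
  comm : ∀ x y, ¬ adj x y → Commute (pr (V x)) (pr (V y))
  deg : ∀ x, (Finset.univ.filter fun y => adj x y).card ≤ g
  pos : 1 ≤ g

/-- A0. Greedy colouring. -/
def StmColor : Prop := ∀ (T : Type) [Fintype T] [DecidableEq T] (adj : T → T → Prop),
  (∀ x y, adj x y → adj y x) → ∀ g : ℕ, (∀ x, (Finset.univ.filter fun y => adj x y).card ≤ g) →
  ∃ col : T → Fin (g + 1), ∀ x y, x ≠ y → adj x y → col x ≠ col y

/-- A1. The detectability lemma. -/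
def StmDL : Prop := ∀ (E : Type) [NormedAddCommGroup E] [InnerProductSpace ℂ E]
  [FiniteDimensional ℂ E] (T : Type) [Fintype T] [DecidableEq T] (V : T → Submodule ℂ E)
  (adj : T → T → Prop) (g : ℕ) (Δ : ℝ), Loc V adj g → 0 ≤ Δ → Gap V Δ →
  ∀ (A : Finset T) (l : List T), l.Nodup → (∀ x, x ∈ l ↔ x ∈ A) → ∀ φ ∈ (G V A)ᗮ,
    ‖(l.map fun x => pr (V x)).prod φ‖ ^ 2 ≤ (g : ℝ) ^ 2 / ((g : ℝ) ^ 2 + Δ) * ‖φ‖ ^ 2

/-- A2. The angle between ground spaces. -/
def StmAngle : Prop := ∀ (E : Type) [NormedAddCommGroup E] [InnerProductSpace ℂ E]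
  [FiniteDimensional ℂ E] (T : Type) [Fintype T] [DecidableEq T] (V : T → Submodule ℂ E)
  (adj : T → T → Prop) (g : ℕ) (Δ : ℝ), Loc V adj g → 0 ≤ Δ → Gap V Δ →
  ∀ (B X : Finset T) (u : E), u ∈ G V B → u ∈ (G V (B ∪ X))ᗮ →
    Δ / ((g : ℝ) ^ 2 + Δ) * ‖u‖ ^ 2 ≤ ‖u - pr (G V X) u‖ ^ 2

/-- The operator `K` agrees on the ground space of `B` up to `η` with the projection onto the ground
space of `B ∪ X`, it fixes the ground spaces of all sets which contain the terms of `B ∪ X` in `Nm`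
and commutes with the terms outside `Np`. -/
structure Impl [DecidableEq T] (V : T → Submodule ℂ E) (B X Nm Np : Finset T) (η : ℝ)
    (K : E →L[ℂ] E) : Prop where
  symm : ∀ a b : E, ⟪K a, b⟫_ℂ = ⟪a, K b⟫_ℂ
  contr : ∀ a b : E, ‖K a + (b - K b)‖ ^ 2 ≤ ‖a‖ ^ 2 + ‖b‖ ^ 2
  approx : ∀ u ∈ G V B, ‖pr (G V (B ∪ X)) u - K u‖ ≤ η * ‖u‖
  fix : ∀ S : Finset T, (B ∪ X) ∩ Nm ⊆ S → ∀ w ∈ G V S, K w = w
  comm : ∀ y, y ∉ Np → Commute K (pr (V y))

/-- A3. Local implementation of the projections. -/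
def StmImpl : Prop := ∀ (E : Type) [NormedAddCommGroup E] [InnerProductSpace ℂ E]
  [FiniteDimensional ℂ E] (T : Type) [Fintype T] [DecidableEq T] (V : T → Submodule ℂ E)
  (adj : T → T → Prop) (g : ℕ) (Δ : ℝ), Loc V adj g → 0 ≤ Δ → Gap V Δ →
  ∀ (c : ℕ) (col : T → Fin c), (∀ x y, x ≠ y → adj x y → col x ≠ col y) →
  ∀ (B X : Finset T) (k : ℕ), ∃ K : E →L[ℂ] E,
    Impl V B X (Nb adj (k * c) X) (Nb adj (k * c + 1) X)
      (Real.sqrt ((g : ℝ) ^ 2 / ((g : ℝ) ^ 2 + Δ)) ^ k) K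

/-- The terms removed around the skipped groups `F`, the groups `ts` being still to be treated. -/
def hol [DecidableEq T] [DecidableEq ι] (Nm Np : ι → Finset T) (F : Finset ι) :
    List ι → Finset T
  | [] => ∅
  | t :: ts => if t ∈ F ∨ ¬ Disjoint (Nm t) (hol Nm Np F ts) then hol Nm Np F ts ∪ Np t
      else hol Nm Np F ts

/-- The terms of the groups in the list. -/
def rest [DecidableEq T] (X : ι → Finset T) : List ι → Finset T
  | [] => ∅
  | t :: ts => X t ∪ rest X ts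

/-- The span of the ground spaces with less than `n` skipped groups. -/
def VV [DecidableEq T] [DecidableEq ι] (V : T → Submodule ℂ E) (X Nm Np : ι → Finset T)
    (ts : List ι) (B : Finset T) (n : ℕ) : Submodule ℂ E :=
  ⨆ F : {F : Finset ι // (∀ f ∈ F, f ∈ ts) ∧ F.card < n},
    G V ((B ∪ rest X ts) \ hol Nm Np F.1 ts)

/-- The condition on the weights. -/
def Cond (near : ι → ι → Prop) (γ : ℝ) : List ι → (ι → ℝ) → Prop
  | [], _ => True
  | t :: ts, b => 1 + 3 / 2 * (ts.map fun j => if near t j then b j else 0).sum ≤ γ * b t ∧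
      Cond near γ ts fun j => if near t j then b j / 2 else b j

/-- A4. The main lemma: a vector orthogonal to the ground spaces with less than `n` skipped groups
has energy almost `n`. -/
def StmTree : Prop := ∀ (E : Type) [NormedAddCommGroup E] [InnerProductSpace ℂ E]
  [FiniteDimensional ℂ E] (T ι : Type) [DecidableEq T] [DecidableEq ι]
  (V : T → Submodule ℂ E) (X Nm Np : ι → Finset T) (near : ι → ι → Prop) (η γ : ℝ),
  0 ≤ η → η ≤ 1 → (∀ t, X t ⊆ Np t) →
  (∀ (B : Finset T) (t : ι), ∃ K : E →L[ℂ] E, Impl V B (X t) (Nm t) (Np t) η K) →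
  (∀ (B : Finset T) (t : ι) (u : E), u ∈ G V B → u ∈ (G V (B ∪ X t))ᗮ →
    γ * ‖u‖ ^ 2 ≤ ‖u - pr (G V (X t)) u‖ ^ 2) →
  (∀ t j, t ≠ j → ¬ near t j → Disjoint (X j) (Np t)) →
  ∀ ts : List ι, ts.Nodup → ∀ b : ι → ℝ, (∀ j, 0 ≤ b j) → Cond near γ ts b →
  ∀ (B : Finset T) (n : ℕ) (u : E), u ∈ G V B →
    (n : ℝ) * (‖u‖ ^ 2 - ‖pr (VV V X Nm Np ts B n) u‖ ^ 2) -
        ts.length * η * (5 * n + 2 * (ts.map b).sum) * ‖u‖ ^ 2 ≤
      (ts.map fun j => b j * ‖u - pr (G V (X j)) u‖ ^ 2).sum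

/-- The bound on the weights. -/
def wB (γ : ℝ) (c ν : ℕ) : ℝ := 2 ^ ν * ((1 + 2 * ν * 2 ^ ν) / γ) ^ c

/-- A5. Existence of weights. -/
def StmWeights : Prop := ∀ (ι : Type) [DecidableEq ι] (near : ι → ι → Prop) (c ν : ℕ)
  (col : ι → Fin c) (γ : ℝ), 0 < γ → γ ≤ 1 → (∀ t j, near t j → near j t) →
  (∀ t j, t ≠ j → near t j → col t ≠ col j) →
  ∀ ts : List ι, ts.Nodup → ts.Pairwise (fun t j => col t ≤ col j) →
  (∀ t, (ts.filter fun j => near t j).length ≤ ν) →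
  ∃ b : ι → ℝ, (∀ j, 0 ≤ b j) ∧ (∀ j, b j ≤ wB γ c ν) ∧ Cond near γ ts b

/-- A6. Bound on the removed terms. -/
def StmHol : Prop := ∀ (T ι : Type) [DecidableEq T] [Fintype ι] [DecidableEq ι]
  (Nm Np : ι → Finset T) (near : ι → ι → Prop) (c : ℕ) (col : ι → Fin c),
  (∀ t j, near t j → near j t) → (∀ t j, t ≠ j → near t j → col t ≠ col j) →
  (∀ t j, t ≠ j → ¬ near t j → Disjoint (Nm t) (Np j)) →
  ∀ ts : List ι, ts.Nodup → ts.Pairwise (fun t j => col t ≤ col j) →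
  ∀ F : Finset ι, (∀ f ∈ F, f ∈ ts) →
    hol Nm Np F ts ⊆ (F.biUnion fun f => Nb near c {f}).biUnion Np

/-- The terms near the groups `F`. -/
def hole [Fintype T] [DecidableEq T] [Fintype ι] [DecidableEq ι] (adj : T → T → Prop)
    (near : ι → ι → Prop) (X : ι → Finset T) (r c : ℕ) (F : Finset ι) : Finset T :=
  (F.biUnion fun f => Nb near c {f}).biUnion fun t => Nb adj (r + 1) (X t)

/-- A7. The abstract theorem: a subspace of small energy has small dimension. -/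
def StmAbs : Prop := ∀ (E : Type) [NormedAddCommGroup E] [InnerProductSpace ℂ E]
  [FiniteDimensional ℂ E] (T ι : Type) [Fintype T] [DecidableEq T] [Fintype ι] [DecidableEq ι]
  (V : T → Submodule ℂ E) (adj : T → T → Prop) (g : ℕ) (Δ : ℝ), Loc V adj g → 0 < Δ → Gap V Δ →
  ∀ (X : ι → Finset T) (near : ι → ι → Prop) (ν k : ℕ), (∀ x, ∃ t, x ∈ X t) →
  (∀ t j, near t j → near j t) → (∀ t, (Finset.univ.filter fun j => near t j).card ≤ ν) →
  (∀ t j, t ≠ j → ¬ near t j →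
    Disjoint (Nb adj (k * (g + 1)) (X t)) (Nb adj (k * (g + 1) + 1) (X j))) →
  ∀ (S : Submodule ℂ E) (θ : ℝ),
  (∀ u ∈ S, ∑ t, ‖u - pr (G V (X t)) u‖ ^ 2 ≤ θ * ‖u‖ ^ 2) → ∀ n : ℕ,
  wB (Δ / ((g : ℝ) ^ 2 + Δ)) (ν + 1) ν * θ + Fintype.card ι *
    Real.sqrt ((g : ℝ) ^ 2 / ((g : ℝ) ^ 2 + Δ)) ^ k *
      (5 * n + 2 * (Fintype.card ι * wB (Δ / ((g : ℝ) ^ 2 + Δ)) (ν + 1) ν)) < n →
  Module.finrank ℂ S ≤ ∑ F ∈ (Finset.univ : Finset (Finset ι)).filter (fun F => F.card < n),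
    Module.finrank ℂ (G V (Finset.univ \ hole adj near X (k * (g + 1)) (ν + 1) F))

end Pool.Agent.N658.FF
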