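import Pool.Agent.N658.FF.Stm
import Pool.Agent.TH235.PP.ThermalCrit

/-! # Frustration-free Hamiltonians on the torus: definitions and statements of the jobs -/

open scoped BigOperators InnerProductSpace Matrix Classical ComplexOrder

noncomputable section

namespace Pool.Agent.N658.FF

open Pool.Agent.TH235.PP

/-- Every subfamily of the terms has a spectral gap of at least `Δ` above its common kernel. -/
def GapAll {d R : ℕ} (h : BoxOp d R) (L : ℕ) [NeZero L] (Δ : ℝ) : Prop :=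
  ∀ (A : Finset (Site L)) (φ : (Site L → Fin d) → ℂ),
    (∀ ψ : (Site L → Fin d) → ℂ, (∀ u ∈ A, term h u *ᵥ ψ = 0) → ip ψ φ = 0) →
    Δ * normSq φ ≤ ∑ u ∈ A, (ip φ (term h u *ᵥ φ)).re

/-- The vectors annihilated by all terms whose boxes do not meet the `w × w` boxes with corners in
`C`. -/
def offSpace {d R : ℕ} (h : BoxOp d R) (L : ℕ) [NeZero L] (w : ℕ) (C : Finset (Site L)) :
    Submodule ℂ ((Site L → Fin d) → ℂ) where
  carrier := {ψ | ∀ u : Site L,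
    (∀ (x : Fin R × Fin R), ∀ c ∈ C, ∀ y : Fin w × Fin w, sh u x ≠ sh c y) → term h u *ᵥ ψ = 0}
  add_mem' := by
    intro a b ha hb u hu
    rw [Matrix.mulVec_add, ha u hu, hb u hu, add_zero]
  zero_mem' := by
    intro u _
    rw [Matrix.mulVec_zero]
  smul_mem' := by
    intro c a ha u hu
    rw [Matrix.mulVec_smul, ha u hu, smul_zero]

/-- Removing the terms which meet `n` boxes of side `w` leaves a common kernel of dimension at most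
`exp (A₀ n w ^ a)`. -/
def DegBound {d R : ℕ} (h : BoxOp d R) (L : ℕ) [NeZero L] (A₀ : ℝ) (a : ℕ) : Prop :=
  ∀ (w : ℕ) (C : Finset (Site L)), 1 ≤ w → w ≤ L →
    (Module.finrank ℂ (offSpace h L w C) : ℝ) ≤ Real.exp (A₀ * C.card * (w : ℝ) ^ a)

/-- The kernels of the terms as subspaces of the Hilbert space. -/
def Vt {d R : ℕ} (h : BoxOp d R) (L : ℕ) [NeZero L] (u : Site L) :
    Submodule ℂ (EuclideanSpace ℂ (Site L → Fin d)) :=
  LinearMap.ker (Matrix.toEuclideanLin (term h u))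

/-- The boxes at `u` and `v` meet. -/
def adjR (R L : ℕ) (u v : Site L) : Prop := ∃ x y : Fin R × Fin R, sh u x = sh v y

/-- B1. The terms form a local family. -/
def StmLoc : Prop := ∀ (d R L : ℕ) [NeZero L], 1 ≤ R → R ≤ L → ∀ h : BoxOp d R,
  h.IsHermitian → Loc (Vt h L) (adjR R L) (4 * R ^ 2)

/-- B2. The gap in terms of projections. -/
def StmGapT : Prop := ∀ (d R L : ℕ) [NeZero L], 1 ≤ R → R ≤ L → ∀ h : BoxOp d R,
  h.PosSemidef → ∀ Δ : ℝ, 0 ≤ Δ → GapAll h L Δ → Gap (Vt h L) (Δ / (nJ h + 1))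

/-- B3. The energy controls the projections of disjoint groups of terms. -/
def StmEn : Prop := ∀ (d R L : ℕ) [NeZero L], 1 ≤ R → R ≤ L → ∀ h : BoxOp d R,
  h.PosSemidef → ∀ Δ : ℝ, 0 < Δ → GapAll h L Δ → ∀ (ι : Type) [Fintype ι]
  (X : ι → Finset (Site L)), (∀ t j, t ≠ j → Disjoint (X t) (X j)) →
  ∀ φ : (Site L → Fin d) → ℂ,
    ∑ t, ‖(WithLp.toLp 2 φ : EuclideanSpace ℂ (Site L → Fin d)) -
      pr (G (Vt h L) (X t)) (WithLp.toLp 2 φ)‖ ^ 2 ≤ (ip φ (ham h L *ᵥ φ)).re / Δ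

/-- B4. Blocks on the torus. -/
def StmGeo : Prop := ∀ (R L s r : ℕ) [NeZero L], 1 ≤ R → (2 * r + 2) * R ≤ s → 60 * s ≤ L →
  ∃ (ι : Type) (_ : Fintype ι) (_ : DecidableEq ι) (X : ι → Finset (Site L))
    (near : ι → ι → Prop) (cor : ι → Site L), Fintype.card ι ≤ L ^ 2 ∧ (∀ x, ∃ t, x ∈ X t) ∧
    (∀ t j, t ≠ j → Disjoint (X t) (X j)) ∧ (∀ t j, near t j → near j t) ∧
    (∀ t, (Finset.univ.filter fun j => near t j).card ≤ 9) ∧
    (∀ t j, t ≠ j → ¬ near t j →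
      Disjoint (Nb (adjR R L) r (X t)) (Nb (adjR R L) (r + 1) (X j))) ∧
    ∀ f, ∀ u ∈ hole (adjR R L) near X r 10 {f},
      ∃ y : Fin (60 * s) × Fin (60 * s), u = sh (cor f) y

/-- B5. Dimensions. -/
def StmFinr : Prop := ∀ (d R L : ℕ) [NeZero L], 1 ≤ R → ∀ (h : BoxOp d R) (w : ℕ)
  (C D : Finset (Site L)),
  (∀ u, (∀ c ∈ C, ∀ y : Fin w × Fin w, u ≠ sh c y) → u ∈ D) →
  Module.finrank ℂ (G (Vt h L) D) ≤ Module.finrank ℂ (offSpace h L w C)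

/-- B6. The number of low energy states. -/
def StmFew : Prop := ∀ (d R : ℕ) (h : BoxOp d R), 1 ≤ d → 1 ≤ R → h.PosSemidef →
  ∀ (Δ A₀ : ℝ) (a : ℕ), 0 < Δ → 0 ≤ A₀ →
  (∃ L₀ : ℕ, ∀ (L : ℕ) [NeZero L], L₀ ≤ L → GapAll h L Δ ∧ DegBound h L A₀ a) →
  ∃ (C : ℝ) (L₀ : ℕ), 0 < C ∧ ∀ (L : ℕ) [NeZero L], L₀ ≤ L →
    ∀ (hH : (ham h L).IsHermitian) (m : ℕ),
      (Pool.Agent.Results.MP_953b23_mp.ThermalCriterion.numStates hH m : ℝ) ≤
        Real.exp (C * (m + 1) * Real.log L ^ (max a 1))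

/-- B7. Gapped families. -/
def StmFam : Prop := ∀ (d R : ℕ) (h : BoxOp d R), 1 ≤ R → h.PosSemidef →
  ∀ (Δ A₀ : ℝ) (a : ℕ), 0 < Δ →
  (∃ L₀ : ℕ, ∀ (L : ℕ) [NeZero L], L₀ ≤ L → GapAll h L Δ ∧ DegBound h L A₀ a) →
  ∀ Ψ : ∀ L : ℕ, (Site L → Fin d) → ℂ,
  (∃ L₀ : ℕ, ∀ (L : ℕ) [NeZero L], L₀ ≤ L → normSq (Ψ L) = 1 ∧ ham h L *ᵥ Ψ L = 0) →
  Pool.Agent.Results.MP_953b23_mp.OverlapBoosting.GappedFamily h Δ Ψ ∧
    ∃ L₀ : ℕ, ∀ (L : ℕ) [NeZero L], L₀ ≤ L →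
      Pool.Agent.Results.MP_953b23_mp.ThermalCriterion.energy (ham h L) (Ψ L) = 0

end Pool.Agent.N658.FF
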