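import Pool.Agent.N658.FF.Stm3

/-! # Frustration-free Hamiltonians: filling of holes -/

open scoped BigOperators InnerProductSpace Matrix Classical ComplexOrder

noncomputable section

namespace Pool.Agent.N658.FF

open Pool.Agent.TH235.PP

/-- Holes of side `w` can be filled: no nonzero vector `ψ` annihilated by the terms off the boxes
with corners in `insert c C` is perfectly distinguishable, away from the box of side `w + 2 ℓ` around
the box at `c`, from all the vectors `φ` annihilated by the terms off the boxes with corners in `C`. -/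
def Fill {d R : ℕ} (h : BoxOp d R) (L : ℕ) [NeZero L] (ℓ w : ℕ) : Prop :=
  ∀ (C : Finset (Site L)) (v : Site L),
    ∀ ψ ∈ offSpace h L w (insert (v.1 + (ℓ : ZMod L), v.2 + (ℓ : ZMod L)) C), ψ ≠ 0 →
      ∃ (O : BoxOp d (w + 2 * ℓ)) (φ : (Site L → Fin d) → ℂ),
        φ ∈ offSpace h L w C ∧ ip φ (term O v *ᵥ ψ) ≠ 0

/-- E1. Filling bounds the degeneracy. -/
def StmFill : Prop := ∀ (d R : ℕ) (h : BoxOp d R) (L : ℕ) [NeZero L] (ℓ w : ℕ), 1 ≤ d → 1 ≤ w →
  Module.finrank ℂ (offSpace h L w ∅) ≤ 1 → (w + 2 * ℓ ≤ L → Fill h L ℓ w) →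
  ∀ C : Finset (Site L), (Module.finrank ℂ (offSpace h L w C) : ℝ) ≤
    Real.exp (2 * Real.log d * (1 + 2 * ℓ) ^ 2 * C.card * (w : ℝ) ^ 2)

end Pool.Agent.N658.FF
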