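import Pool.Agent.N658.FF.Stm4
import Pool.Agent.Y738.PE.Glob3

/-! # Frustration-free Hamiltonians: thick regions, and the local problem -/

open scoped BigOperators InnerProductSpace Matrix Classical ComplexOrder

noncomputable section

namespace Pool.Agent.N658.FF

open Pool.Agent.TH235.PP

/-- The union of the boxes of side `b` with corners in `A`. -/
def thick {L : ℕ} (b : ℕ) (A : Finset (Site L)) : Finset (Site L) :=
  A.biUnion fun y => Finset.univ.image fun z : Fin b × Fin b => sh y z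

/-- The terms in every union of boxes of side `b` have a spectral gap of at least `Δ` above their
common kernel. -/
def GapThick {d R : ℕ} (h : BoxOp d R) (L : ℕ) [NeZero L] (b : ℕ) (Δ : ℝ) : Prop :=
  ∀ (A : Finset (Site L)) (φ : (Site L → Fin d) → ℂ),
    (∀ ψ : (Site L → Fin d) → ℂ, (∀ u ∈ thick b A, term h u *ᵥ ψ = 0) → ip ψ φ = 0) →
    Δ * normSq φ ≤ ∑ u ∈ thick b A, (ip φ (term h u *ᵥ φ)).re

/-- E2. The interaction of the boxes of side `b`. -/
def StmThick : Prop := ∀ (d R b : ℕ) (h : BoxOp d R), 1 ≤ R → 1 ≤ b → h.PosSemidef →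
  ∃ h' : BoxOp d (R + b), h'.PosSemidef ∧ ∀ (L : ℕ) [NeZero L], R + b ≤ L →
    ham h' L = ((b : ℂ) ^ 2) • ham h L ∧
    (∀ Δ : ℝ, GapThick h L b Δ → GapAll h' L Δ) ∧
    ∀ (w : ℕ) (C : Finset (Site L)), offSpace h' L w C ≤
      offSpace h L (w + 2 * b) (C.image fun c => (c.1 - (b : ZMod L), c.2 - (b : ZMod L)))

/-- E3. Global approximation implies local approximation. -/
def StmGlobLoc : Prop := ∀ (d : ℕ), 2 ≤ d → ∀ Ψ : ∀ L : ℕ, (Site L → Fin d) → ℂ,
  (∃ L₀ : ℕ, ∀ (L : ℕ) [NeZero L], L₀ ≤ L → normSq (Ψ L) = 1) →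
  (∃ C : ℝ, Pool.Agent.Results.MP_953b23_mp.OverlapBoosting.Approx Ψ 1 C
    fun L => (L : ℝ) ^ (-(1 : ℝ))) →
  ∀ R : Finset (ℤ × ℤ), Pool.Agent.Y738.PE.PolyConv R Ψ → Pool.Agent.Y738.PE.EffAll R Ψ

end Pool.Agent.N658.FF
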